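import Pool.Agent.H97.NR.Stmts

/-!
# Project NR: the equations of an equivalence of tables of type T2b
-/

set_option autoImplicit false

namespace Pool.NR

namespace V2x

variable {p : ℕ} [Fact p.Prime]

theorem ext {a b1 b2 c1 c2 m11 m12 m21 m22 a' b1' b2' c1' c2' m11' m12' m21' m22' : ZMod p}
    (h : Eq2b (T2b a b1 b2 c1 c2 m11 m12 m21 m22) (T2b a' b1' b2' c1' c2' m11' m12' m21' m22')) :
    ∃ u ui h1 h2 g11 g12 g21 g22 di : ZMod p, u * ui = 1 ∧ (g11 * g22 - g12 * g21) * di = 1 ∧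
      u * a' = u ^ 2 * a + u * (b1 + c1) * h1 + u * (b2 + c2) * h2 + h1 ^ 2 * m11 +
        h1 * h2 * (m12 + m21) + h2 ^ 2 * m22 ∧
      u * b1' = u * (b1 * g11 + b2 * g21) + h1 * (m11 * g11 + m12 * g21) +
        h2 * (m21 * g11 + m22 * g21) ∧
      u * b2' = u * (b1 * g12 + b2 * g22) + h1 * (m11 * g12 + m12 * g22) +
        h2 * (m21 * g12 + m22 * g22) ∧
      u * c1' = u * (c1 * g11 + c2 * g21) + g11 * (m11 * h1 + m12 * h2) +
        g21 * (m21 * h1 + m22 * h2) ∧
      u * c2' = u * (c1 * g12 + c2 * g22) + g12 * (m11 * h1 + m12 * h2) +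
        g22 * (m21 * h1 + m22 * h2) ∧
      u * m11' = g11 ^ 2 * m11 + g11 * g21 * (m12 + m21) + g21 ^ 2 * m22 ∧
      u * m12' = g11 * g12 * m11 + g11 * g22 * m12 + g21 * g12 * m21 + g21 * g22 * m22 ∧
      u * m21' = g12 * g11 * m11 + g12 * g21 * m12 + g22 * g11 * m21 + g22 * g21 * m22 ∧
      u * m22' = g12 ^ 2 * m11 + g12 * g22 * (m12 + m21) + g22 ^ 2 * m22 := by
  obtain ⟨u, h1, h2, g11, g12, g21, g22, hu, hd, h⟩ := h
  refine ⟨u, u⁻¹, h1, h2, g11, g12, g21, g22, (g11 * g22 - g12 * g21)⁻¹, mul_inv_cancel₀ hu,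
    mul_inv_cancel₀ hd, ?_, ?_, ?_, ?_, ?_, ?_, ?_, ?_, ?_⟩
  · have := h 0 0
    simp [T2b, Fin.sum_univ_three] at this
    linear_combination this
  · have := h 0 1
    simp [T2b, Fin.sum_univ_three] at this
    linear_combination this
  · have := h 0 2
    simp [T2b, Fin.sum_univ_three] at this
    linear_combination this
  · have := h 1 0
    simp [T2b, Fin.sum_univ_three] at this
    linear_combination this
  · have := h 2 0
    simp [T2b, Fin.sum_univ_three] at this
    linear_combination this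
  · have := h 1 1
    simp [T2b, Fin.sum_univ_three] at this
    linear_combination this
  · have := h 1 2
    simp [T2b, Fin.sum_univ_three] at this
    linear_combination this
  · have := h 2 1
    simp [T2b, Fin.sum_univ_three] at this
    linear_combination this
  · have := h 2 2
    simp [T2b, Fin.sum_univ_three] at this
    linear_combination this

theorem sq0_eq (hk : KRUStmt) {a a' t : ZMod p} (ha : Sq0 a) (ha' : Sq0 a') (ht : t ≠ 0)
    (h : a' = a * t ^ 2) : a = a' := by
  rcases ha with ha | ha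
  · rw [ha] at h ⊢
    rw [h, zero_mul]
  · rcases ha' with ha' | ha'
    · exfalso
      rw [ha'] at h
      exact mul_ne_zero ha.1 (pow_ne_zero 2 ht) h.symm
    · exact hk p 2 a a' t ha ha' ht h

theorem two_ne {p : ℕ} [Fact p.Prime] (hp : p ≠ 2) : (2 : ZMod p) ≠ 0 := by
  intro h
  have h1 : ((2 : ℕ) : ZMod p) = 0 := by exact_mod_cast h
  rw [ZMod.natCast_eq_zero_iff] at h1
  exact hp ((Nat.prime_dvd_prime_iff_eq (Fact.out) Nat.prime_two).1 h1)

theorem two_cases {p : ℕ} (hp : p = 2) (x : ZMod p) : x = 0 ∨ x = 1 := by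
  subst hp
  revert x
  decide

end V2x

end Pool.NR
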