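import Pool.Agent.H70.NR.Ext

/-!
# Project NR, module V2D: uniqueness of the normal forms D of type T2b
-/

set_option autoImplicit false

namespace Pool.NR

open V2x in
theorem v2d (hk : KRUStmt) : V2DStmt := by
  intro p _ B B' hB hB' h
  cases hB with
  | d1 a =>
    cases hB' <;>
    · obtain ⟨u, ui, h1, h2, g11, g12, g21, g22, di, hu, hd, e1, e2, e3, e4, e5, e6, e7, e8, e9⟩ :=
        V2x.ext h
      try unfold Bit at *
      grind
  | d2 a ha =>
    cases hB' with
    | d2 a' ha' =>
      obtain ⟨u, ui, h1, h2, g11, g12, g21, g22, di, hu, hd, e1, e2, e3, e4, e5, e6, e7, e8, e9⟩ :=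
        V2x.ext h
      have hg : g11 ≠ 0 := by grind
      have ht : a' = a * g11 ^ 2 := by grind
      rw [V2x.sq0_eq hk ha ha' hg ht]
    | _ =>
      obtain ⟨u, ui, h1, h2, g11, g12, g21, g22, di, hu, hd, e1, e2, e3, e4, e5, e6, e7, e8, e9⟩ :=
        V2x.ext h
      try unfold Bit at *
      grind
  | d3 γ h3 h4 =>
    cases hB' <;>
    · obtain ⟨u, ui, h1, h2, g11, g12, g21, g22, di, hu, hd, e1, e2, e3, e4, e5, e6, e7, e8, e9⟩ :=
        V2x.ext h
      try unfold Bit at *
      grind
  | d4 =>
    cases hB' <;>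
    · obtain ⟨u, ui, h1, h2, g11, g12, g21, g22, di, hu, hd, e1, e2, e3, e4, e5, e6, e7, e8, e9⟩ :=
        V2x.ext h
      try unfold Bit at *
      grind
  | d5 a hp ha =>
    have h2ne := two_ne hp
    cases hB' with
    | d5 a' hp' ha' =>
      obtain ⟨u, ui, h1, h2, g11, g12, g21, g22, di, hu, hd, e1, e2, e3, e4, e5, e6, e7, e8, e9⟩ :=
        V2x.ext h
      have hg : g11 ≠ 0 := by grind
      have ht : a' = a * g11 ^ 2 := by grind
      rw [V2x.sq0_eq hk ha ha' hg ht]
    | _ =>
      obtain ⟨u, ui, h1, h2, g11, g12, g21, g22, di, hu, hd, e1, e2, e3, e4, e5, e6, e7, e8, e9⟩ :=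
        V2x.ext h
      try unfold Bit at *
      grind
  | d6 s hs =>
    cases hB' with
    | d7 hp =>
      obtain ⟨u, ui, h1, h2, g11, g12, g21, g22, di, hu, hd, e1, e2, e3, e4, e5, e6, e7, e8, e9⟩ :=
        V2x.ext h
      have hu1 := two_cases hp u
      have hh1 := two_cases hp h1
      have hh2 := two_cases hp h2
      have hg11 := two_cases hp g11
      have hg12 := two_cases hp g12
      have hg21 := two_cases hp g21
      have hg22 := two_cases hp g22
      have h20 : (2 : ZMod p) = 0 := by subst hp; rfl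
      unfold Bit at *
      grind
    | d5 a' hp' ha' =>
      have h2ne := two_ne hp'
      obtain ⟨u, ui, h1, h2, g11, g12, g21, g22, di, hu, hd, e1, e2, e3, e4, e5, e6, e7, e8, e9⟩ :=
        V2x.ext h
      unfold Bit at *
      grind
    | _ =>
      obtain ⟨u, ui, h1, h2, g11, g12, g21, g22, di, hu, hd, e1, e2, e3, e4, e5, e6, e7, e8, e9⟩ :=
        V2x.ext h
      try unfold Bit at *
      grind
  | d7 hp =>
    have h20 : (2 : ZMod p) = 0 := by subst hp; rfl
    cases hB' <;>
    · obtain ⟨u, ui, h1, h2, g11, g12, g21, g22, di, hu, hd, e1, e2, e3, e4, e5, e6, e7, e8, e9⟩ :=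
        V2x.ext h
      have hu1 := two_cases hp u
      have hh1 := two_cases hp h1
      have hh2 := two_cases hp h2
      have hg11 := two_cases hp g11
      have hg12 := two_cases hp g12
      have hg21 := two_cases hp g21
      have hg22 := two_cases hp g22
      try unfold Bit at *
      grind

end Pool.NR
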