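import Pool.Agent.H70.NR.Ext

/-!
# Project NR, module V2K: uniqueness of the normal forms K of type T2b
-/

set_option autoImplicit false

namespace Pool.NR

theorem v2k (hk : KRUStmt) : V2KStmt := by
  intro p _ B B' hB hB' h
  cases hB with
  | k1 a hp ha =>
    cases hB' with
    | k1 a' hp' ha' =>
      obtain ⟨u, ui, h1, h2, g11, g12, g21, g22, di, hu, hd, e1, e2, e3, e4, e5, e6, e7, e8, e9⟩ :=
        V2x.ext h
      have hg : g11 ≠ 0 := by grind
      have ht : a' = a * g11 ^ 2 := by grind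
      rw [V2x.sq0_eq hk ha ha' hg ht]
    | _ =>
      obtain ⟨u, ui, h1, h2, g11, g12, g21, g22, di, hu, hd, e1, e2, e3, e4, e5, e6, e7, e8, e9⟩ :=
        V2x.ext h
      grind
  | _ =>
    cases hB' <;>
    · obtain ⟨u, ui, h1, h2, g11, g12, g21, g22, di, hu, hd, e1, e2, e3, e4, e5, e6, e7, e8, e9⟩ :=
        V2x.ext h
      grind

end Pool.NR
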