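import Pool.Agent.H70.NR.Ext

/-!
# Project NR, module V2O: uniqueness of the normal forms O of type T2b
-/

set_option autoImplicit false

namespace Pool.NR

theorem v2o : V2OStmt := by
  intro p _ B B' hB hB' h
  cases hB <;> cases hB' <;>
  · obtain ⟨u, ui, h1, h2, g11, g12, g21, g22, di, hu, hd, e1, e2, e3, e4, e5, e6, e7, e8, e9⟩ :=
      V2x.ext h
    try unfold Bit at *
    grind

end Pool.NR
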